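import Pool.Agent.R123.Flex.Upper
import Pool.Agent.R123.Flex.Lower

/-!
# The largest flexibility of a purely morphic square-free word over three letters is `3 / 16`

This answers Q2: `M_pm = 3 / 16`, and the supremum is attained.
-/

set_option autoImplicit false

namespace Pool.Agent.Results.MP_0e1483_co.PurelyMorphicFlexibility

open Pool.Agent.R123.Flex

theorem flex_x : flex x = 3 / 16 := by
  apply le_antisymm (flex_le squareFree_x)
  refine le_trans density_holes (le_csSup ?_ ⟨holes, wild, rfl⟩)
  refine ⟨3 / 16, ?_⟩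
  rintro d ⟨P, hP, rfl⟩
  exact upperDensity_le squareFree_x hP

/-- The supremum of the flexibilities of the purely morphic square-free words over three letters is
`3 / 16`, and it is attained. -/
theorem result :
    sSup {f : ℝ | ∃ u : ℕ → Fin 3, SquareFree u ∧ PurelyMorphic u ∧ f = flex u} = 3 / 16 ∧
      ∃ u : ℕ → Fin 3, SquareFree u ∧ PurelyMorphic u ∧ flex u = 3 / 16 := by
  have h : ∃ u : ℕ → Fin 3, SquareFree u ∧ PurelyMorphic u ∧ flex u = 3 / 16 :=
    ⟨x, squareFree_x, purelyMorphic_x, flex_x⟩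
  refine ⟨?_, h⟩
  apply le_antisymm
  · apply Real.sSup_le
    · rintro f ⟨u, hu, -, rfl⟩
      exact flex_le hu
    · norm_num
  · obtain ⟨u, h1, h2, h3⟩ := h
    refine le_csSup ⟨3 / 16, ?_⟩ ⟨u, h1, h2, h3.symm⟩
    rintro f ⟨u, hu, -, rfl⟩
    exact flex_le hu

end Pool.Agent.Results.MP_0e1483_co.PurelyMorphicFlexibility
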